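import Mathlib

namespace Pool.Agent.Results.MP_aaa104_nt.Six

/-- `K̂_n`: positive rationals whose numerator and denominator have only prime factors `≤ n`. -/
def Khat (n : ℕ) : Set ℚ := {x | 0 < x ∧ ∀ p : ℕ, p.Prime → (p ∣ x.num.natAbs ∨ p ∣ x.den) → p ≤ n}

/-- `c` (only its values on `K̂_n` matter) is an `n`-satisfactory coloring of `K̂_n`. -/
def Satisfactory (n : ℕ) (c : ℚ → ℕ) : Prop :=
  (∀ x ∈ Khat n, 1 ≤ c x ∧ c x ≤ n) ∧ (∀ i : ℕ, 1 ≤ i → i ≤ n → c i = i) ∧
  ∀ x ∈ Khat n, ∀ i j : ℕ, 1 ≤ i → i < j → j ≤ n → c (i * x) ≠ c (j * x)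

/-- The color class of color `k`. -/
def colorClass (n : ℕ) (c : ℚ → ℕ) (k : ℕ) : Set ℚ := {x | x ∈ Khat n ∧ c x = k}

def col (u w : ℤ) : ℕ :=
  if u % 2 = 0 then (if w % 3 = 0 then 1 else if w % 3 = 1 then 2 else 4)
  else (if w % 3 = 0 then 3 else if w % 3 = 1 then 6 else 5)

def F (a b d : ℤ) : ℕ := col (b + d) (a + 2 * d + if b + d = 2 then 1 else 0)

def c (x : ℚ) : ℕ := F (padicValRat 2 x) (padicValRat 3 x) (padicValRat 5 x)

theorem col_inj {u w u' w' : ℤ} (h : col u w = col u' w') : u % 2 = u' % 2 ∧ w % 3 = w' % 3 := by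
  unfold col at h
  split_ifs at h <;> omega

theorem c_mul (i : ℕ) (hi : i ≠ 0) (x : ℚ) (hx : x ≠ 0) : c (i * x) =
    F (padicValNat 2 i + padicValRat 2 x) (padicValNat 3 i + padicValRat 3 x)
      (padicValNat 5 i + padicValRat 5 x) := by
  haveI : Fact (Nat.Prime 5) := ⟨by norm_num⟩
  have h : (i : ℚ) ≠ 0 := by exact_mod_cast hi
  simp only [c, padicValRat.mul h hx, padicValRat.of_nat]

theorem vals : ∀ i : ℕ, i ≤ 108 → padicValNat 2 i = (if i = 0 then 0 else i.primeFactorsList.count 2) ∧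
    padicValNat 3 i = i.primeFactorsList.count 3 ∧ padicValNat 5 i = i.primeFactorsList.count 5 := by
  intro i _
  simp only [Nat.primeFactorsList_count_eq]
  refine ⟨?_, (Nat.factorization_def i (by norm_num)).symm, (Nat.factorization_def i (by norm_num)).symm⟩
  split_ifs with h
  · simp [h]
  · exact (Nat.factorization_def i (by norm_num)).symm

theorem c_nat (i : ℕ) (h0 : i ≠ 0) (h : i ≤ 108) : c i = F (i.primeFactorsList.count 2)
    (i.primeFactorsList.count 3) (i.primeFactorsList.count 5) := by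
  have := c_mul i h0 1 one_ne_zero
  simpa [vals i h, h0] using this

theorem mem (i : ℕ) (h0 : i ≠ 0) (h : i ∣ 6 ^ 3) : (i : ℚ) ∈ Khat 6 := by
  refine ⟨by positivity, fun p hp h' => ?_⟩
  simp only [Rat.num_natCast, Int.natAbs_natCast, Rat.den_natCast, Nat.dvd_one] at h'
  exact Nat.le_of_dvd (by norm_num)
    (hp.dvd_of_dvd_pow ((h'.resolve_right hp.ne_one).trans h))

theorem result : ∃ (n : ℕ) (c : ℚ → ℕ) (k i : ℕ), 1 ≤ n ∧ Satisfactory n c ∧ 1 ≤ k ∧ k ≤ n ∧
    1 ≤ i ∧ i ≤ n ∧ ∀ k' : ℕ, (fun x : ℚ => i * x) '' colorClass n c k ≠ colorClass n c k' := by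
  refine ⟨6, c, 1, 3, by norm_num, ⟨fun x _ => ?_, fun i h1 h2 => ?_, fun x hx i j h1 h2 h3 h => ?_⟩,
    le_rfl, by norm_num, by norm_num, by norm_num, fun k' h => ?_⟩
  · unfold c F col
    split_ifs <;> omega
  · rw [c_nat i (by omega) (by omega)]
    interval_cases i <;> simp [Nat.primeFactorsList_ofNat] <;> rfl
  · rw [c_mul i (by omega) x hx.1.ne', c_mul j (by omega) x hx.1.ne', (vals i (by omega)).1,
      (vals i (by omega)).2.1, (vals i (by omega)).2.2, (vals j (by omega)).1,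
      (vals j (by omega)).2.1, (vals j (by omega)).2.2] at h
    have := col_inj h
    interval_cases j <;> interval_cases i <;> simp [Nat.primeFactorsList_ofNat] at this <;>
      split_ifs at this <;> omega
  · have a : ((3 : ℕ) : ℚ) ∈ colorClass 6 c k' := h ▸ ⟨(1 : ℕ), ⟨mem 1 (by norm_num) (by norm_num),
      by rw [c_nat 1 (by norm_num) (by norm_num)]; simp; rfl⟩, by norm_num⟩
    have b : ((108 : ℕ) : ℚ) ∈ colorClass 6 c k' := h ▸ ⟨(36 : ℕ), ⟨mem 36 (by norm_num) (by norm_num),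
      by rw [c_nat 36 (by norm_num) (by norm_num)]; simp [Nat.primeFactorsList_ofNat]; rfl⟩,
      by norm_num⟩
    have e := a.2.trans b.2.symm
    rw [c_nat 3 (by norm_num) (by norm_num), c_nat 108 (by norm_num) (by norm_num)] at e
    simp [Nat.primeFactorsList_ofNat] at e
    revert e; decide

end Pool.Agent.Results.MP_aaa104_nt.Six
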